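import Pool.Agent.Helper771.MultSeq

set_option autoImplicit false

namespace Pool.Agent.Results.MP_b13872_an.Classification

open Pool.Agent.Helper771.MultSeq

/-- Full answer to Q1: `Ψ` is admissible if and only if there are a real constant `c` and
nonnegative integers `m, n` with `Ψ(x,y) = c x^m y^n` for all `x, y ≥ 0` (with `0^0 = 1`). -/
theorem result (Ψ : ℝ × ℝ → ℝ) : Admissible Ψ ↔
    ∃ (c : ℝ) (m n : ℕ), ∀ x y : ℝ, 0 ≤ x → 0 ≤ y → Ψ (x, y) = c * x ^ m * y ^ n :=
  classification Ψ

end Pool.Agent.Results.MP_b13872_an.Classification
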