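import Pool.Agent.Helper771.MultSeq

set_option autoImplicit false

namespace Pool.Agent.Results.MP_b13872_an.StrictClassification

open Pool.Agent.Helper771.MultSeq

/-- The answer to Q1 for the reading in which the zero polynomial does not count as having only
real zeros: `Ψ` is admissible if and only if there are a constant `c ≠ 0` and nonnegative integers
`m, n` with `Ψ(x,y) = c x^m y^n` for all `x, y > 0`. -/
theorem result (Ψ : ℝ × ℝ → ℝ) : AdmissibleStrict Ψ ↔
    ∃ (c : ℝ) (m n : ℕ), c ≠ 0 ∧ ∀ x y : ℝ, 0 < x → 0 < y → Ψ (x, y) = c * x ^ m * y ^ n :=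
  classification_strict Ψ

end Pool.Agent.Results.MP_b13872_an.StrictClassification
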